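import Pool.Agent.Lib.MP_cdcb37_lc.Final

/-!
# Graphs of separation dimension at most two are recognizable in polynomial time

The algorithm isolates the redundant vertices (leaves and ears on edges) and then decides
the solvability of a system of linear equations over the field with two elements with one
equation for each pair of disjoint edges and one for each triangle and vertex outside of it.
The proof of correctness (`Pool.Agent.MP_cdcb37.sepDim_le_two_iff`) is a Hanani-Tutte type
theorem: solutions give bipolar orientations with left-right orders, hence embeddings of
2-connected supergraphs whose triangles are faces, which are extended to triangulated spheres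
without separating triangles; canonical orders of these give the two linear orders.
-/

namespace Pool.Agent.Results.MP_cdcb37_lc.SepDimTwoInP

open Pool.Agent.MP_cdcb37

/-- Every graph with `n` vertices is coded by a bit string of length `n * n`, and a deterministic
Turing machine decides in polynomial time whether the graph coded by a given bit string has
separation dimension at most `2`. -/
theorem result :
    (∀ (n : ℕ) (G : SimpleGraph (Fin n)), ∃ w : List Bool, w.length = n * n ∧
      Nonempty (graphOf w ≃g G)) ∧
    ∃ dec : List Bool → Bool,
      Nonempty (Turing.TM2ComputableInPolyTime (fun w : List Bool => w)
        Computability.encodeBool dec) ∧
      ∀ w : List Bool, dec w = true ↔ sepDim (graphOf w) ≤ 2 :=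
  ⟨graphOf_surj, main_theorem⟩

end Pool.Agent.Results.MP_cdcb37_lc.SepDimTwoInP
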